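import Pool.Agent.L0h14.OG.Fin

/-!
# Orlov's conjecture for fourfolds with big canonical or anticanonical class

Let `X` and `Y` be derived equivalent smooth projective varieties of dimension `n` over a perfect field, `v` the class (Mukai
vector) of the kernel `E` of an equivalence, a sum of cycles of all codimensions on `X × Y`, and `w` the class of the
kernel of the inverse equivalence; `v` and `w` are inverse to each other as correspondences. Let `v_i` be the component of degree
`i` of `v`, a cycle of dimension `n - i`, and `w_i` the same for `w`.

If the canonical class or the anticanonical class of `X` is big then every component of the support of `E` of
dimension larger than `n` is contained in a product `D × D'` of proper subvarieties (Kawamata), so that for `i < 0` the cycle `v_i`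
is supported on such products. For `n ≤ 4` the cycle `v_i` is then, on (resolutions of) `D × D'`, a divisor or a multiple of `D × D'`;
this is the condition `v_i ∈ Thin i`. Moreover `X` and `Y` are birational and isomorphic in codimension one, whence the condition
`IsoLow` for `n ≤ 4`.

Theorem. Let `X` and `Y` be smooth projective varieties of the same dimension `n` over a perfect field, and `v` and `w` mixed
rational classes which are inverse to each other. Suppose that `IsoLow` holds (for `n = 4`: `h^1(X) ≃ h^1(Y)` and `NS(X) ≃ NS(Y)`
over `ℚ`; for `n = 3`: `h^1(X) ≃ h^1(Y)`, which is a theorem of Popa and Schnell and of Honigs for derived equivalent
varieties), and that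

* the components of negative degree of `v` and of `w` are supported on products `D × D'` with
`dim D + dim D' ≤ n + 1 - i`, up to correspondences which come from curves (`Thin i`), or
* there are correspondences `f` and `g` of degree zero which are inverse to each other up to correspondences in `Thin 0`,
for `n = 3` for example up to cycles which are supported on products of surfaces.

Then the Chow motives of `X` and `Y` are isomorphic.

So Orlov's conjecture holds for fourfolds with big canonical or anticanonical class. The motives are not known to be
finite-dimensional, and neither the standard conjectures nor the equality of numerical and homological
equivalence are known for these varieties. The second alternative applies to threefolds `X` and `Y` over a curve or a surface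
`B` and equivalences relative to `B`, for example if `X` and `Y` are minimal threefolds of Kodaira dimension one or two: the
generic fibres are derived equivalent curves or surfaces over the function field of `B`, their motives are isomorphic, and the
closures of the cycles are inverse to each other up to cycles which are supported on products of surfaces.

The proof: the components of degree zero of `v` and `w` are inverse to each other up to correspondences which come from
curves, since divisors on products do. The direct summands of motives of curves are counted in the motives of `X` and `Y`
modulo numerical equivalence: their multiplicities agree in low degrees by `IsoLow`, in high degrees by duality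
(the theorem of Weil on the positivity of the Rosati involution shows that summands of `h^1` of curves are self-dual), and in the
middle degrees because the total multiplicity, over all twists, is determined by the isomorphism `v` of mixed degree. The category
of numerical motives has no radical by the Lefschetz trace formula (Jannsen), and a Krull-Schmidt argument gives an
isomorphism of numerical motives, which is lifted to Chow motives using the finite-dimensionality of motives of curves.
-/

set_option autoImplicit false

universe u v

open CategoryTheory

namespace Pool.Agent.Results.MP_5c0b30_ag.BigCanonicalFourfolds

open Pool.Agent.L0h14.OE Pool.Agent.L0h14.OG Pool.Agent.Y107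

/-- Let `X` and `Y` be smooth projective varieties of the same dimension over a perfect field, and `v`, `w` mixed classes which
are inverse to each other (as for a derived equivalence). Suppose that `X` and `Y` satisfy `IsoLow`, and that the components
of negative degree of `v` and `w` are thin, or that there are correspondences of degree zero which are inverse to each other up to
thin correspondences. Then the Chow motives of `X` and `Y` are isomorphic. -/
theorem result {𝒱 : Type u} [Category.{v} 𝒱] [Preadditive 𝒱] [Linear ℚ 𝒱] (T : FieldTheory 𝒱) (X Y : 𝒱)
    (hXY : T.dim X = T.dim Y) (v : X ⟶ Y) (w : Y ⟶ X) (hvw : v ≫ w = 𝟙 X) (hwv : w ≫ v = 𝟙 Y)
    (hiso : IsoLow T.toTraceTheory X Y)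
    (h : (∀ i < 0, cmp (T.isInternal X Y) i v ∈ Thin T.toTraceTheory i X Y ∧
        cmp (T.isInternal Y X) i w ∈ Thin T.toTraceTheory i Y X) ∨
      ∃ f ∈ T.gr X Y 0, ∃ g ∈ T.gr Y X 0, f ≫ g - 𝟙 X ∈ Thin T.toTraceTheory 0 X X ∧
        g ≫ f - 𝟙 Y ∈ Thin T.toTraceTheory 0 Y Y) : T.ChowIso X Y :=
  orlov T hXY hvw hwv hiso h

end Pool.Agent.Results.MP_5c0b30_ag.BigCanonicalFourfolds
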