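import Pool.Agent.L0h14.OG.Fd

/-!
# Orlov's conjecture over arbitrary fields: rational and numerical equivalence

Let `X` and `Y` be derived equivalent smooth projective varieties over a field. The kernel of an equivalence and that of its
inverse have mixed classes `v`, `w` in the rational Chow groups of `X × Y` and `Y × X` which are inverse to each other.
Orlov's question is whether the Chow motives `h(X)` and `h(Y)` are isomorphic.

Let `P` be a class of varieties which contains all varieties of dimension at most one, such that numerically trivial
endomorphisms of sums of motives of varieties in `P` are nilpotent, for example the class of all varieties whose Chow motive is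
finite-dimensional (theorems of Kimura). Suppose that one of the following conditions is satisfied.

* The components of negative degree of `v` and of `w` are sums of compositions `h(X) → h(Z) → h(Y)`, respectively
`h(Y) → h(Z) → h(X)`, of correspondences of all degrees, with `Z` in `P`. If the canonical or the anticanonical class of `X` is big
then these components are supported on products `D × D'` of proper subvarieties (Kawamata), where `D` is contained in the locus
where the class is not ample. So the condition is satisfied, in all dimensions, if the subvarieties of this locus have resolutions (or
alterations) with finite-dimensional motives.
* The diagonals of `X` and of `Y` are, up to correspondences which come from varieties in `P`, sums of compositions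
`h(X) → h(D)(-c) → h(X)` (see `ChowTheory.Level`), where the dimension is at most `2 c + 2`. For `c = 0` this is no condition;
for `c = 1` it is satisfied by the varieties of dimension at most four whose zero-cycles are supported on (the image
of) a variety in `P`, for example the rationally connected fourfolds.

We show that then the Chow motives of `X` and `Y` are isomorphic if and only if the motives modulo numerical equivalence are
isomorphic. So Orlov's conjecture for these varieties, over any field, is reduced to the existence of an isomorphism in
the semisimple category of motives modulo numerical equivalence.
-/

set_option autoImplicit false

universe u v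

open CategoryTheory

namespace Pool.Agent.Results.MP_5c0b30_ag.FiniteDimensionalNegativePart

open Pool.Agent.L0h14.ORN Pool.Agent.Y107

/-- Let `P` be a class of varieties with finite-dimensional motives which contains all varieties of dimension at most
one, and let `v` and `w` be mixed classes on `X × Y` and `Y × X` which are inverse to each other (for example if `X` and `Y` are
derived equivalent). Suppose that the components of negative degree of `v` and `w` come from varieties in `P`, or that `X` and `Y`
are varieties of dimension at most `2 c + 2` whose motives have level at most two up to motives from `P`. Then the Chow
motives of `X` and `Y` are isomorphic if and only if their numerical motives are isomorphic. -/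
theorem result {𝒱 : Type u} [Category.{v} 𝒱] [Preadditive 𝒱] [Linear ℚ 𝒱] (T : ChowTheory 𝒱) (P : 𝒱 → Prop)
    (hP : T.Finite P) {X Y : 𝒱} {v : X ⟶ Y} {w : Y ⟶ X} (hvw : v ≫ w = 𝟙 X) (hwv : w ≫ v = 𝟙 Y)
    (h : (∀ i < 0, cmp (T.isInternal X Y) i v ∈ Via P X Y ∧ cmp (T.isInternal Y X) i w ∈ Via P Y X) ∨
      ∃ c : ℕ, T.dim X ≤ 2 * c + 2 ∧ T.dim Y ≤ 2 * c + 2 ∧ T.Level P c X ∧ T.Level P c Y) :
    T.ChowIso X Y ↔ T.NumIso X Y :=
  Pool.Agent.L0h14.OG.iff_num T P hP hvw hwv h

end Pool.Agent.Results.MP_5c0b30_ag.FiniteDimensionalNegativePart
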