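import Pool.Agent.L0h14.OR.All

/-!
# Orlov's conjecture for fourfolds whose zero-cycles are supported on a curve

Let `X` and `Y` be smooth projective complex varieties of dimension `n` with equivalent derived categories,
`v = ch(E) √td(X × Y)` the class of the kernel `E` of an equivalence, a sum of cycles of all codimensions on `X × Y`, and
`w` the class of the kernel of the inverse equivalence. They are inverse to each other as correspondences, and `v` respects
the Mukai pairings on cohomology (`IsDerivedPair`; Mukai, Orlov, Căldăraru).

We consider varieties `X` of dimension `n ≤ 2 c + 2` whose diagonal is a sum of compositions `h(X) → h(Z) → h(X)` with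
curves `Z`, and of compositions `h(X) → h(D)(-c) → h(X)` (`Level`). The transcendental part of the motive is then of
level at most two, as for a surface. For `c = 0` and `n ≤ 2` this is no condition. For `c = 1` and `n ≤ 4` it is satisfied if
the zero-cycles of `X` are supported on a curve, for example if `X` is a rationally connected fourfold (Bloch and Srinivas).
For `n ≤ 2 c + 1` the motive of `X` is a sum of motives of curves, but for `n = 2 c + 2`, for example for
fourfolds and `c = 1`, it is not known to be finite-dimensional in the sense of Kimura.

Theorem. If `h^j(X) ≃ h^j(Y)` for `0 < j ≤ n - 3` as homological motives, then the Chow motives of `X` and `Y` are isomorphic.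

For `n ≤ 3` there is no condition; for `n = 4` the condition is `h^1(X) ≃ h^1(Y)`, a theorem of Popa and Schnell, and it is
empty if there are no holomorphic one-forms. So Orlov's conjecture holds for complex fourfolds whose zero-cycles are
supported on a curve.

The proof has three parts. First, correspondences of negative degree between varieties of level at most two come from
curves, since between the varieties `D` they become divisors or cycles of codimension zero. It follows that the
components of degree zero of `v` and `w` are inverse to each other up to correspondences which come from curves. Secondly, the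
standard conjecture of Lefschetz type is proved for varieties of level at most two, with the theorem of Lefschetz on
`(1, 1)`-classes, and therefore the homological motives are isomorphic by a theorem of the starting library
(`MP_5c0b30_ag.LowDimension`). Thirdly, homologically trivial correspondences which come from curves are nilpotent,
and an isomorphism up to correspondences from curves can be changed to an isomorphism if the homological motives are
isomorphic.
-/

set_option autoImplicit false

universe u v

open CategoryTheory

namespace Pool.Agent.Results.MP_5c0b30_ag.LevelTwo

open Pool.Agent.L0h14.OR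

/-- Let `X` and `Y` be smooth projective complex varieties of dimension `n ≤ 2 c + 2` whose motives have level at most
two, and let `v`, `w` be the classes of an equivalence of their derived categories. If `h^j(X) ≃ h^j(Y)` for `0 < j ≤ n - 3` then
the Chow motives of `X` and `Y` are isomorphic. -/
theorem result {𝒪 : ℕ → Type u} [Category.{v} (Var 𝒪)] [Preadditive (Var 𝒪)] [Linear ℚ (Var 𝒪)] (T : ChowTheory 𝒪)
    {n c : ℕ} (hn : n ≤ 2 * c + 2) (X Y : 𝒪 n) (hX : T.Level c ⟨n, X⟩) (hY : T.Level c ⟨n, Y⟩)
    (v : (⟨n, X⟩ : Var 𝒪) ⟶ ⟨n, Y⟩) (w : (⟨n, Y⟩ : Var 𝒪) ⟶ ⟨n, X⟩) (h : T.IsDerivedPair v w)
    (hj : ∀ j, 0 < j → j + 3 ≤ n → T.Iso ⟨n, X⟩ ⟨n, Y⟩ j) : T.ChowIso ⟨n, X⟩ ⟨n, Y⟩ :=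
  orlov T Lift Ball Low hn X Y hX hY h hj

end Pool.Agent.Results.MP_5c0b30_ag.LevelTwo
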