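import Pool.Agent.L0h14.UR.Fin

/-!
# Orlov's conjecture for uniruled complex threefolds

Let `X` and `Y` be smooth projective complex threefolds with equivalent derived categories, `v = ch(E) √td(X × Y)` the class
of the kernel `E` of an equivalence, a sum of cycles of all codimensions on `X × Y`, and `w` the class of the kernel of the
inverse equivalence. They are inverse to each other as correspondences, `v` respects the Mukai pairings on cohomology
(`IsDerivedPair`; Mukai, Orlov, Căldăraru), and `v` intertwines the multiplications with the canonical classes `κ` of `X`
and `κ'` of `Y`, since equivalences commute with the Serre functors (`Intertwines`).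

If `X` is uniruled there is a covering family `p : Z → S`, `f : Z → X` of rational curves parametrised by a surface `S`. The
correspondence `f_* p^* p_* f^*` of degree `-1`, the class of the pairs of points which lie on a curve of the family,
has a multiple `l` with `κ l + l κ = 1` up to correspondences which come from curves (`Ruled`), because the degree of the
canonical class on the curves of the family is not zero (it is at most `-2`).

Theorem. If `X` is uniruled, in the form `κ l + l κ = 1` up to curves, then the Chow motives of `X` and `Y` are
isomorphic. There is no condition on `Y`.

The motive of `X` contains the transcendental part `t_2(S)` of the motive of the surface `S` and its twist; it is not known to be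
finite-dimensional. The threefold `X` can have many holomorphic two-forms and one-forms.

The proof has four parts. First, a correspondence `f` of degree `-1` between `X` and `Y` which commutes with the canonical
classes comes from curves: `f = κ (l f) + (l f) κ'` up to curves, and `l f` is a divisor on the product. So the components
of negative degree of `v` and `w` come from curves and the components of degree zero are inverse to each other up to
correspondences which come from curves. Secondly, the standard conjecture of Lefschetz type for `X` is proved: `l` is an
algebraic isomorphism from the transcendental part of `H^4` to that of `H^2`, and the algebraic part is treated with the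
theorem of Lefschetz on `(1, 1)`-classes and the Hodge index theorem. Hence the homological motives are
isomorphic by a theorem of the starting library (`MP_5c0b30_ag.LowDimension`). Thirdly, homologically trivial
correspondences which come from curves are nilpotent. Fourthly, an isomorphism up to curves can be changed to an
isomorphism if the homological motives are isomorphic.
-/

set_option autoImplicit false

universe u v

open CategoryTheory

namespace Pool.Agent.Results.MP_5c0b30_ag.UniruledThreefolds

open Pool.Agent.L0h14.OR Pool.Agent.L0h14.UR

/-- Let `X` and `Y` be smooth projective complex threefolds, `v` and `w` the classes of an equivalence of their derived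
categories and of its inverse, and `κ`, `κ'` the canonical classes, intertwined by `v`. If `X` is covered by rational curves,
more precisely if there is a correspondence `l` of degree `-1` such that `κ l + l κ` is the diagonal of `X` up to
correspondences which come from curves, then the Chow motives of `X` and `Y` are isomorphic. -/
theorem result {𝒪 : ℕ → Type u} [Category.{v} (Var 𝒪)] [Preadditive (Var 𝒪)] [Linear ℚ (Var 𝒪)] (T : ChowTheory 𝒪)
    (X Y : 𝒪 3) (v : (⟨3, X⟩ : Var 𝒪) ⟶ ⟨3, Y⟩) (w : (⟨3, Y⟩ : Var 𝒪) ⟶ ⟨3, X⟩) (h : T.IsDerivedPair v w)
    (κ : (⟨3, X⟩ : Var 𝒪) ⟶ ⟨3, X⟩) (κ' : (⟨3, Y⟩ : Var 𝒪) ⟶ ⟨3, Y⟩) (hv : Intertwines T κ κ' v)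
    (hR : Ruled T κ) : T.ChowIso ⟨3, X⟩ ⟨3, Y⟩ :=
  orlov T h hv hR

end Pool.Agent.Results.MP_5c0b30_ag.UniruledThreefolds
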